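import Mathlib

/-!
MP_35e3b8_an, Q1: almost invariant Lipschitz functions need not be close to invariant ones.

The space is the real line with the metric `1 + c ⌈|x - y|⌉` (for `x ≠ y`), the group is the
group of all increasing homeomorphisms of the line commuting with `x ↦ x + 1`.
-/

namespace Pool.Agent.Results.MP_35e3b8_an.NoInvariantApproximation

/-- `f` is Lipschitz with constant `K`. -/
def LipBound {M : Type} [MetricSpace M] (K : ℝ) (f : M → ℝ) : Prop :=
  ∀ x y, |f x - f y| ≤ K * dist x y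

/-- `f` belongs to `Lip_0(M)`, for the base point `o`: it is Lipschitz and vanishes at `o`. -/
def MemLip0 {M : Type} [MetricSpace M] (o : M) (f : M → ℝ) : Prop :=
  f o = 0 ∧ ∃ K : ℝ, 0 ≤ K ∧ LipBound K f

/-- The norm of `Lip_0(M)`: the best Lipschitz constant. -/
noncomputable def lipNorm {M : Type} [MetricSpace M] (f : M → ℝ) : ℝ :=
  sInf {K : ℝ | 0 ≤ K ∧ LipBound K f}

/-- The action of `G` on `Lip_0(M)`: `(g f)(x) = f (g⁻¹ x) - f (g⁻¹ o)`. -/
def act {G M : Type} [Group G] [MulAction G M] (o : M) (g : G) (f : M → ℝ) : M → ℝ :=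
  fun x => f (g⁻¹ • x) - f (g⁻¹ • o)

lemma lipNorm_le {M : Type} [MetricSpace M] {f : M → ℝ} {K : ℝ} (hK : 0 ≤ K)
    (h : LipBound K f) : lipNorm f ≤ K :=
  csInf_le ⟨0, fun _ hx => hx.1⟩ ⟨hK, h⟩

lemma lipNorm_bound {M : Type} [MetricSpace M] {f : M → ℝ} {K : ℝ} (hK : 0 ≤ K)
    (h : LipBound K f) (x y : M) : |f x - f y| ≤ lipNorm f * dist x y := by
  by_contra hlt
  push Not at hlt
  have hd : 0 < dist x y := by
    rcases (dist_nonneg (x := x) (y := y)).eq_or_lt with h0 | h0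
    · have := h x y
      rw [← h0] at this hlt
      simp at this hlt
      rw [this] at hlt
      simp at hlt
    · exact h0
  have h1 : sInf {K : ℝ | 0 ≤ K ∧ LipBound K f} < |f x - f y| / dist x y := by
    rw [lt_div_iff₀ hd]
    exact hlt
  have hne : {K : ℝ | 0 ≤ K ∧ LipBound K f}.Nonempty := ⟨K, hK, h⟩
  obtain ⟨K', ⟨_, hK'⟩, hlt'⟩ := exists_lt_of_csInf_lt hne h1
  have := hK' x y
  rw [lt_div_iff₀ hd] at hlt'
  linarith

/-! ### The group -/

/-- Maps of `[0, 1)` into itself that are increasing. -/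
structure Good (φ : ℝ → ℝ) : Prop where
  mono : ∀ s t, 0 ≤ s → s ≤ t → t < 1 → φ s ≤ φ t
  nonneg : ∀ t, 0 ≤ t → t < 1 → 0 ≤ φ t
  lt_one : ∀ t, 0 ≤ t → t < 1 → φ t < 1

/-- The increasing degree one map with `x ↦ ⌊x⌋ + φ (fract x)`. -/
noncomputable def lift (φ : ℝ → ℝ) (hφ : Good φ) : CircleDeg1Lift where
  toFun x := ⌊x⌋ + φ (Int.fract x)
  monotone' := by
    intro x y hxy
    have hf : ⌊x⌋ ≤ ⌊y⌋ := Int.floor_mono hxy
    rcases hf.eq_or_lt with h | h
    · have : φ (Int.fract x) ≤ φ (Int.fract y) := by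
        apply hφ.mono _ _ (Int.fract_nonneg x) _ (Int.fract_lt_one y)
        unfold Int.fract
        rw [h]
        linarith
      change (⌊x⌋ : ℝ) + φ (Int.fract x) ≤ ⌊y⌋ + φ (Int.fract y)
      rw [h]
      linarith
    · have h2 : (⌊x⌋ : ℝ) + 1 ≤ ⌊y⌋ := by exact_mod_cast h
      have h3 := hφ.lt_one _ (Int.fract_nonneg x) (Int.fract_lt_one x)
      have h4 := hφ.nonneg _ (Int.fract_nonneg y) (Int.fract_lt_one y)
      change (⌊x⌋ : ℝ) + φ (Int.fract x) ≤ ⌊y⌋ + φ (Int.fract y)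
      linarith
  map_add_one' := by
    intro x
    simp
    ring

lemma lift_apply (φ : ℝ → ℝ) (hφ : Good φ) (x : ℝ) :
    lift φ hφ x = ⌊x⌋ + φ (Int.fract x) := rfl

lemma floor_lift (ψ : ℝ → ℝ) (hψ : Good ψ) (x : ℝ) : ⌊lift ψ hψ x⌋ = ⌊x⌋ := by
  have h2 := hψ.nonneg _ (Int.fract_nonneg x) (Int.fract_lt_one x)
  have h3 := hψ.lt_one _ (Int.fract_nonneg x) (Int.fract_lt_one x)
  rw [lift_apply, Int.floor_intCast_add]
  have : ⌊ψ (Int.fract x)⌋ = 0 := by
    rw [Int.floor_eq_zero_iff]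
    exact ⟨h2, h3⟩
  omega

lemma fract_lift (ψ : ℝ → ℝ) (hψ : Good ψ) (x : ℝ) :
    Int.fract (lift ψ hψ x) = ψ (Int.fract x) := by
  rw [Int.fract, floor_lift, lift_apply]
  ring

lemma lift_lift (φ : ℝ → ℝ) (hφ : Good φ) (ψ : ℝ → ℝ) (hψ : Good ψ) (x : ℝ) :
    lift φ hφ (lift ψ hψ x) = ⌊x⌋ + φ (ψ (Int.fract x)) := by
  rw [lift_apply φ, floor_lift, fract_lift]

/-- The unit of `CircleDeg1Lift` given by mutually inverse `φ` and `ψ`. -/
noncomputable def unit (φ ψ : ℝ → ℝ) (hφ : Good φ) (hψ : Good ψ)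
    (h : ∀ t, 0 ≤ t → t < 1 → φ (ψ t) = t) (h' : ∀ t, 0 ≤ t → t < 1 → ψ (φ t) = t) :
    CircleDeg1Liftˣ where
  val := lift φ hφ
  inv := lift ψ hψ
  val_inv := by
    ext x
    rw [CircleDeg1Lift.mul_apply, lift_lift, h _ (Int.fract_nonneg x) (Int.fract_lt_one x)]
    simp [Int.floor_add_fract]
  inv_val := by
    ext x
    rw [CircleDeg1Lift.mul_apply, lift_lift, h' _ (Int.fract_nonneg x) (Int.fract_lt_one x)]
    simp [Int.floor_add_fract]

/-- `t ↦ t / (2 - t)`. -/
noncomputable def fa (t : ℝ) : ℝ := t / (2 - t)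

/-- The inverse of `fa` on `[0, 1)`. -/
noncomputable def ga (t : ℝ) : ℝ := 2 * t / (1 + t)

/-- `t ↦ t ^ 2 / (t ^ 2 + (1 - t) ^ 2)`. -/
noncomputable def fk (t : ℝ) : ℝ := t ^ 2 / (t ^ 2 + (1 - t) ^ 2)

/-- The inverse of `fk` on `[0, 1)`. -/
noncomputable def gk (t : ℝ) : ℝ := √t / (√t + √(1 - t))

lemma good_fa : Good fa where
  mono s t hs hst ht := by
    unfold fa
    rw [div_le_div_iff₀ (by linarith) (by linarith)]
    nlinarith
  nonneg t h0 h1 := by
    unfold fa
    apply div_nonneg h0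
    linarith
  lt_one t h0 h1 := by
    unfold fa
    rw [div_lt_one (by linarith)]
    linarith

lemma good_ga : Good ga where
  mono s t hs hst ht := by
    unfold ga
    rw [div_le_div_iff₀ (by linarith) (by linarith)]
    nlinarith
  nonneg t h0 h1 := by
    unfold ga
    positivity
  lt_one t h0 h1 := by
    unfold ga
    rw [div_lt_one (by linarith)]
    linarith

lemma den_pos (t : ℝ) : 0 < t ^ 2 + (1 - t) ^ 2 := by
  nlinarith [sq_nonneg (2 * t - 1)]

lemma good_fk : Good fk where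
  mono s t hs hst ht := by
    unfold fk
    rw [div_le_div_iff₀ (den_pos s) (den_pos t)]
    have h1 : s * (1 - t) ≤ t * (1 - s) := by nlinarith
    have h2 : 0 ≤ s * (1 - t) := mul_nonneg hs (by linarith)
    have h3 : (s * (1 - t)) ^ 2 ≤ (t * (1 - s)) ^ 2 := pow_le_pow_left₀ h2 h1 2
    nlinarith
  nonneg t h0 h1 := by
    unfold fk
    positivity
  lt_one t h0 h1 := by
    unfold fk
    rw [div_lt_one (den_pos t)]
    have : 0 < (1 - t) ^ 2 := by
      apply pow_pos
      linarith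
    linarith

lemma sden_pos {t : ℝ} (h1 : t < 1) : 0 < √t + √(1 - t) := by
  have : 0 < √(1 - t) := Real.sqrt_pos.2 (by linarith)
  have := Real.sqrt_nonneg t
  linarith

lemma good_gk : Good gk where
  mono s t hs hst ht := by
    unfold gk
    rw [div_le_div_iff₀ (sden_pos (by linarith)) (sden_pos ht)]
    have h1 : √s ≤ √t := Real.sqrt_le_sqrt hst
    have h2 : √(1 - t) ≤ √(1 - s) := Real.sqrt_le_sqrt (by linarith)
    have h3 : √s * √(1 - t) ≤ √t * √(1 - s) :=
      mul_le_mul h1 h2 (Real.sqrt_nonneg _) (Real.sqrt_nonneg _)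
    nlinarith
  nonneg t h0 h1 := by
    unfold gk
    positivity
  lt_one t h0 h1 := by
    unfold gk
    rw [div_lt_one (sden_pos h1)]
    have : 0 < √(1 - t) := Real.sqrt_pos.2 (by linarith)
    linarith

lemma fa_ga (t : ℝ) (h0 : 0 ≤ t) (h1 : t < 1) : fa (ga t) = t := by
  unfold fa ga
  have h2 : (1 + t) ≠ 0 := by linarith
  have h3 : 2 - 2 * t / (1 + t) ≠ 0 := by
    have : 2 - 2 * t / (1 + t) = 2 / (1 + t) := by field_simp; ring
    rw [this]
    positivity
  field_simp
  ring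

lemma ga_fa (t : ℝ) (h0 : 0 ≤ t) (h1 : t < 1) : ga (fa t) = t := by
  unfold fa ga
  have h2 : (2 - t) ≠ 0 := by linarith
  have h3 : 1 + t / (2 - t) ≠ 0 := by
    have : 1 + t / (2 - t) = 2 / (2 - t) := by field_simp; ring
    rw [this]
    apply div_ne_zero two_ne_zero h2
  field_simp
  ring

lemma fk_gk (t : ℝ) (h0 : 0 ≤ t) (h1 : t < 1) : fk (gk t) = t := by
  have hp := sden_pos h1
  have e1 : (√t) ^ 2 = t := Real.sq_sqrt h0
  have e2 : (√(1 - t)) ^ 2 = 1 - t := Real.sq_sqrt (by linarith)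
  have e3 : 1 - gk t = √(1 - t) / (√t + √(1 - t)) := by
    unfold gk
    field_simp
    ring
  unfold fk
  rw [e3]
  unfold gk
  rw [div_pow, div_pow, e1, e2]
  have hp2 : (√t + √(1 - t)) ^ 2 ≠ 0 := by positivity
  field_simp
  ring

lemma gk_fk (t : ℝ) (h0 : 0 ≤ t) (h1 : t < 1) : gk (fk t) = t := by
  have hd := den_pos t
  have e1 : √(fk t) = t / √(t ^ 2 + (1 - t) ^ 2) := by
    unfold fk
    rw [Real.sqrt_div' _ hd.le, Real.sqrt_sq h0]
  have e2 : √(1 - fk t) = (1 - t) / √(t ^ 2 + (1 - t) ^ 2) := by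
    have : 1 - fk t = (1 - t) ^ 2 / (t ^ 2 + (1 - t) ^ 2) := by
      unfold fk
      field_simp
      ring
    rw [this, Real.sqrt_div' _ hd.le, Real.sqrt_sq (by linarith)]
  unfold gk
  rw [e1, e2]
  have hs : 0 < √(t ^ 2 + (1 - t) ^ 2) := Real.sqrt_pos.2 hd
  rw [← add_div, show t + (1 - t) = 1 by ring]
  field_simp

lemma fk_fa (t : ℝ) (h0 : 0 ≤ t) (h1 : t < 1) : fk (fa t) = fa (fa (fk t)) := by
  have hd := den_pos t
  have h2 : (2 - t) ≠ 0 := by linarith
  have e1 : fa (fa (fk t)) = t ^ 2 / (t ^ 2 + 4 * (1 - t) ^ 2) := by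
    have h3 : fa (fk t) = t ^ 2 / (t ^ 2 + 2 * (1 - t) ^ 2) := by
      unfold fa fk
      have h4 : 2 - t ^ 2 / (t ^ 2 + (1 - t) ^ 2) =
          (t ^ 2 + 2 * (1 - t) ^ 2) / (t ^ 2 + (1 - t) ^ 2) := by
        field_simp
        ring
      rw [h4, div_div_div_cancel_right₀ hd.ne']
    have hd2 : 0 < t ^ 2 + 2 * (1 - t) ^ 2 := by nlinarith [sq_nonneg (1 - t)]
    rw [h3]
    unfold fa
    have h4 : 2 - t ^ 2 / (t ^ 2 + 2 * (1 - t) ^ 2) =
        (t ^ 2 + 4 * (1 - t) ^ 2) / (t ^ 2 + 2 * (1 - t) ^ 2) := by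
      field_simp
      ring
    rw [h4, div_div_div_cancel_right₀ hd2.ne']
  rw [e1]
  unfold fk fa
  have h5 : 1 - t / (2 - t) = 2 * (1 - t) / (2 - t) := by
    field_simp
    ring
  rw [h5, div_pow, div_pow, ← add_div, div_div_div_cancel_right₀ (pow_ne_zero 2 h2)]
  ring_nf

/-- The homeomorphism `a`. -/
noncomputable def A : CircleDeg1Liftˣ := unit fa ga good_fa good_ga fa_ga ga_fa

/-- The homeomorphism `k` conjugating `a` to its square. -/
noncomputable def Kk : CircleDeg1Liftˣ := unit fk gk good_fk good_gk fk_gk gk_fk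

lemma conj : Kk * A = A * A * Kk := by
  apply Units.ext
  ext x
  simp only [Units.val_mul, CircleDeg1Lift.mul_apply]
  change lift fk good_fk (lift fa good_fa x) =
    lift fa good_fa (lift fa good_fa (lift fk good_fk x))
  rw [lift_lift, lift_lift, floor_lift, fract_lift,
    fk_fa _ (Int.fract_nonneg x) (Int.fract_lt_one x)]

/-- The conjugate of `a` by the translation by `1/2`. -/
noncomputable def B : CircleDeg1Liftˣ :=
  CircleDeg1Lift.translate (Multiplicative.ofAdd (1 / 2 : ℝ)) * A *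
    (CircleDeg1Lift.translate (Multiplicative.ofAdd (1 / 2 : ℝ)))⁻¹

lemma A_apply (x : ℝ) : A x = ⌊x⌋ + fa (Int.fract x) := rfl

lemma B_apply (x : ℝ) : B x = 1 / 2 + A (x - 1 / 2) := by
  unfold B
  rw [← map_inv, ← ofAdd_neg]
  simp only [Units.val_mul, CircleDeg1Lift.mul_apply]
  rw [CircleDeg1Lift.translate_apply, CircleDeg1Lift.translate_apply]
  ring_nf

lemma fa_lt {t : ℝ} (h0 : 0 < t) (h1 : t < 1) : fa t < t := by
  unfold fa
  rw [div_lt_iff₀ (by linarith)]
  nlinarith

lemma fa_zero : fa 0 = 0 := by simp [fa]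

lemma A_le (x : ℝ) : A x ≤ x := by
  rw [A_apply]
  rcases (Int.fract_nonneg x).eq_or_lt with h | h
  · rw [← h, fa_zero]
    have := Int.floor_add_fract x
    linarith
  · have := fa_lt h (Int.fract_lt_one x)
    have := Int.floor_add_fract x
    linarith

lemma A_lt {x : ℝ} (h : Int.fract x ≠ 0) : A x < x := by
  rw [A_apply]
  have h' := (Int.fract_nonneg x).lt_of_ne h.symm
  have := fa_lt h' (Int.fract_lt_one x)
  have := Int.floor_add_fract x
  linarith

lemma B_le (x : ℝ) : B x ≤ x := by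
  rw [B_apply]
  have := A_le (x - 1 / 2)
  linarith

lemma B_lt {x : ℝ} (h : Int.fract (x - 1 / 2) ≠ 0) : B x < x := by
  rw [B_apply]
  have := A_lt h
  linarith

/-- The fixed point free homeomorphism `p = b a`. -/
noncomputable def P : CircleDeg1Liftˣ := B * A

lemma P_apply (x : ℝ) : P x = B (A x) := by
  unfold P
  simp only [Units.val_mul, CircleDeg1Lift.mul_apply]

lemma P_lt (x : ℝ) : P x < x := by
  rw [P_apply]
  by_cases h : Int.fract x = 0
  · have hA : A x = x := by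
      rw [A_apply, h, fa_zero]
      have := Int.floor_add_fract x
      linarith
    rw [hA]
    apply B_lt
    intro h2
    rw [Int.fract_eq_iff] at h h2
    obtain ⟨-, -, m, hm⟩ := h
    obtain ⟨-, -, n, hn⟩ := h2
    have : ((2 * m - 2 * n : ℤ) : ℝ) = (1 : ℤ) := by
      push_cast
      linarith
    have := Int.cast_injective this
    omega
  · exact (B_le _).trans_lt (A_lt h)

lemma P_unbounded (R : ℝ) : ∃ n : ℕ, ((P ^ n : CircleDeg1Liftˣ) : CircleDeg1Lift) 0 < R := by
  by_contra hcon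
  push Not at hcon
  have hit : ∀ n : ℕ, ((P ^ n : CircleDeg1Liftˣ) : CircleDeg1Lift) 0 = (fun x => P x)^[n] 0 := by
    intro n
    induction n with
    | zero => simp
    | succ n ih =>
      rw [pow_succ', Function.iterate_succ_apply', ← ih]
      simp only [Units.val_mul, CircleDeg1Lift.mul_apply]
  have hanti : Antitone fun n : ℕ => (fun x => P x)^[n] 0 := by
    apply antitone_nat_of_succ_le
    intro n
    rw [Function.iterate_succ_apply']
    exact (P_lt _).le
  have hbdd : BddBelow (Set.range fun n : ℕ => (fun x => P x)^[n] 0) := by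
    refine ⟨R, ?_⟩
    rintro _ ⟨n, rfl⟩
    have := hcon n
    rw [hit] at this
    exact this
  have hlim := tendsto_atTop_ciInf hanti hbdd
  have hcont : Continuous fun x => P x := (CircleDeg1Lift.toOrderIso P).continuous
  have hfix := isFixedPt_of_tendsto_iterate hlim hcont.continuousAt
  have := P_lt (⨅ n : ℕ, (fun x => P x)^[n] 0)
  rw [hfix.eq] at this
  exact lt_irrefl _ this

/-- Every homomorphism from the group to the reals kills `p`. -/
lemma hom_P (H : CircleDeg1Liftˣ → ℝ) (hH : ∀ g h, H (g * h) = H g + H h) : H P = 0 := by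
  have hA : H A = 0 := by
    have h := congrArg H conj
    rw [hH, hH, hH] at h
    linarith
  have h1 : H 1 = 0 := by
    have := hH 1 1
    rw [one_mul] at this
    linarith
  have hB : H B = 0 := by
    unfold B
    rw [hH, hH, hA]
    have := hH (CircleDeg1Lift.translate (Multiplicative.ofAdd (1 / 2 : ℝ)))
      (CircleDeg1Lift.translate (Multiplicative.ofAdd (1 / 2 : ℝ)))⁻¹
    rw [mul_inv_cancel, h1] at this
    linarith
  unfold P
  rw [hH, hA, hB, add_zero]

/-! ### The metric space -/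

/-- The underlying set of the metric space: the real line. -/
def Line : Type := ℝ

/-- The metric `1 + c ⌈|x - y|⌉` for `x ≠ y`. -/
noncomputable def ldist (c : ℝ) (x y : ℝ) : ℝ := if x = y then 0 else 1 + c * ⌈|x - y|⌉

lemma ceil_tri (x y z : ℝ) : (⌈|x - z|⌉ : ℝ) ≤ ⌈|x - y|⌉ + ⌈|y - z|⌉ := by
  have h : |x - z| ≤ (⌈|x - y|⌉ : ℝ) + ⌈|y - z|⌉ :=
    (abs_sub_le x y z).trans (add_le_add (Int.le_ceil _) (Int.le_ceil _))
  have h2 : ⌈|x - z|⌉ ≤ ⌈|x - y|⌉ + ⌈|y - z|⌉ := by
    rw [Int.ceil_le]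
    push_cast
    exact h
  exact_mod_cast h2

lemma ceil_nonneg' (x y : ℝ) : (0 : ℝ) ≤ ⌈|x - y|⌉ := by
  exact_mod_cast Int.ceil_nonneg (abs_nonneg _)

lemma ldist_self (c x : ℝ) : ldist c x x = 0 := by simp [ldist]

lemma ldist_comm (c x y : ℝ) : ldist c x y = ldist c y x := by
  unfold ldist
  rw [abs_sub_comm]
  simp only [eq_comm]

lemma ldist_tri {c : ℝ} (hc : 0 < c) (x y z : ℝ) :
    ldist c x z ≤ ldist c x y + ldist c y z := by
  have h1 := mul_le_mul_of_nonneg_left (ceil_tri x y z) hc.le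
  have h2 := mul_nonneg hc.le (ceil_nonneg' x y)
  have h3 := mul_nonneg hc.le (ceil_nonneg' y z)
  unfold ldist
  by_cases hxz : x = z
  · rw [if_pos hxz]
    split_ifs <;> linarith
  · rw [if_neg hxz]
    by_cases hxy : x = y
    · subst hxy
      rw [if_pos rfl, if_neg hxz, zero_add]
    · by_cases hyz : y = z
      · subst hyz
        rw [if_pos rfl, if_neg hxy, add_zero]
      · rw [if_neg hxy, if_neg hyz]
        linarith

lemma ldist_eq {c : ℝ} (hc : 0 < c) {x y : ℝ} (h : ldist c x y = 0) : x = y := by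
  by_contra hxy
  unfold ldist at h
  rw [if_neg hxy] at h
  have h2 := mul_nonneg hc.le (ceil_nonneg' x y)
  linarith

/-- The metric space structure on the line. -/
noncomputable abbrev lineMetric (c : ℝ) (hc : 0 < c) : MetricSpace Line where
  dist := ldist c
  dist_self x := ldist_self c x
  dist_comm x y := ldist_comm c x y
  dist_triangle x y z := ldist_tri hc x y z
  eq_of_dist_eq_zero := fun {x y} h => ldist_eq (x := x) (y := y) hc h

/-- The action of the group on the line. -/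
noncomputable abbrev lineAction : MulAction CircleDeg1Liftˣ Line where
  smul g x := (g x : ℝ)
  one_smul x := rfl
  mul_smul g h x := rfl

lemma ceil_inv_aux (g : CircleDeg1Liftˣ) (x y : ℝ) (hxy : x ≤ y) (n : ℕ)
    (h : y - x ≤ n) : g y - g x ≤ n := by
  have h1 : y ≤ x + n := by linarith
  have h2 : g y ≤ g (x + n) := (g : CircleDeg1Lift).monotone h1
  rw [CircleDeg1Lift.map_add_nat] at h2
  linarith

lemma ceil_le_aux (g : CircleDeg1Liftˣ) (x y : ℝ) :
    ⌈|g x - g y|⌉ ≤ ⌈|x - y|⌉ := by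
  wlog hxy : x ≤ y with H
  · have := H g y x (by linarith)
    rwa [abs_sub_comm, abs_sub_comm x y]
  have hn : 0 ≤ ⌈|x - y|⌉ := Int.ceil_nonneg (abs_nonneg _)
  obtain ⟨n, hn⟩ := Int.eq_ofNat_of_zero_le hn
  have h1 : |x - y| ≤ n := by
    have := Int.le_ceil |x - y|
    rw [hn] at this
    exact_mod_cast this
  have h2 : g x ≤ g y := (g : CircleDeg1Lift).monotone hxy
  rw [hn, Int.ceil_le]
  rw [abs_sub_comm, abs_of_nonneg (by linarith)] at h1 ⊢
  exact_mod_cast ceil_inv_aux g x y hxy n h1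

lemma ldist_le_aux {c : ℝ} (hc : 0 < c) (g : CircleDeg1Liftˣ) (x y : ℝ) :
    ldist c (g x) (g y) ≤ ldist c x y := by
  by_cases hxy : x = y
  · rw [hxy, ldist_self, ldist_self]
  · have h1 : (⌈|g x - g y|⌉ : ℝ) ≤ ⌈|x - y|⌉ := by exact_mod_cast ceil_le_aux g x y
    have h2 := mul_le_mul_of_nonneg_left h1 hc.le
    have h3 := mul_nonneg hc.le (ceil_nonneg' x y)
    unfold ldist
    rw [if_neg hxy]
    split_ifs <;> linarith

lemma ldist_smul {c : ℝ} (hc : 0 < c) (g : CircleDeg1Liftˣ) (x y : ℝ) :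
    ldist c (g x) (g y) = ldist c x y := by
  apply le_antisymm (ldist_le_aux hc g x y)
  have := ldist_le_aux hc g⁻¹ (g x) (g y)
  rwa [CircleDeg1Lift.units_inv_apply_apply, CircleDeg1Lift.units_inv_apply_apply] at this

lemma le_ldist {c : ℝ} (hc : 0 < c) (x y : ℝ) : c * |x - y| ≤ ldist c x y := by
  unfold ldist
  by_cases hxy : x = y
  · simp [hxy]
  · rw [if_neg hxy]
    have := mul_le_mul_of_nonneg_left (Int.le_ceil |x - y|) hc.le
    linarith

lemma ldist_le {c : ℝ} (hc : 0 < c) (x y : ℝ) : ldist c x y ≤ 1 + c * (|x - y| + 1) := by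
  unfold ldist
  have h := mul_le_mul_of_nonneg_left (Int.ceil_lt_add_one |x - y|).le hc.le
  have h2 := mul_nonneg hc.le (ceil_nonneg' x y)
  split_ifs <;> linarith

lemma one_le_ldist {c : ℝ} (hc : 0 < c) {x y : ℝ} (h : x ≠ y) : 1 ≤ ldist c x y := by
  unfold ldist
  rw [if_neg h]
  have h2 := mul_nonneg hc.le (ceil_nonneg' x y)
  linarith

/-- The displacement of a degree one homeomorphism oscillates by at most one. -/
lemma displacement (g : CircleDeg1Liftˣ) (x y : ℝ) : |(g x - x) - (g y - y)| ≤ 1 := by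
  have h1 : y + ⌊x - y⌋ ≤ x := by
    have := Int.floor_le (x - y)
    linarith
  have h2 : x ≤ y + (⌊x - y⌋ + 1 : ℤ) := by
    have := Int.lt_floor_add_one (x - y)
    push_cast
    linarith
  have h3 : g (y + ⌊x - y⌋) ≤ g x := (g : CircleDeg1Lift).monotone h1
  have h4 : g x ≤ g (y + (⌊x - y⌋ + 1 : ℤ)) := (g : CircleDeg1Lift).monotone h2
  rw [CircleDeg1Lift.map_add_int] at h3 h4
  have h5 := Int.floor_le (x - y)
  have h6 := Int.lt_floor_add_one (x - y)
  push_cast at h4
  rw [abs_le]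
  constructor <;> linarith

/-- **Answer to Q1: no**, in a strong form.  For every `ε > 0` there are a pointed metric
space `(M, o)`, a group `G` acting on `M` by isometries and an `ε`-invariant function `f` in
`Lip_0(M)` of norm one such that `‖f - fb‖ ≥ 1` for every invariant `fb` in `Lip_0(M)`. -/
theorem result (ε : ℝ) (hε : 0 < ε) :
    ∃ (M : Type) (_ : MetricSpace M) (o : M) (G : Type) (_ : Group G) (_ : MulAction G M)
      (_ : IsIsometricSMul G M) (f : M → ℝ),
      MemLip0 o f ∧ lipNorm f = 1 ∧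
      (∀ g : G, lipNorm (act o g f - f) ≤ ε) ∧
      ∀ fb : M → ℝ, MemLip0 o fb → (∀ g : G, act o g fb = fb) → 1 ≤ lipNorm (f - fb) := by
  letI := lineMetric ε hε
  letI := lineAction
  have hdist : ∀ x y : Line, dist x y = ldist ε x y := fun x y => rfl
  have hsmul : ∀ (g : CircleDeg1Liftˣ) (x : Line), g • x = (g x : ℝ) := fun g x => rfl
  have hiso : IsIsometricSMul CircleDeg1Liftˣ Line :=
    ⟨fun g => Isometry.of_dist_eq fun x y => ldist_smul hε g x y⟩
  let f : Line → ℝ := fun x => ε * (show ℝ from x)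
  have hf1 : LipBound 1 f := by
    intro x y
    have h := le_ldist hε x y
    change |ε * (show ℝ from x) - ε * (show ℝ from y)| ≤ 1 * ldist ε x y
    rw [← mul_sub, abs_mul, abs_of_pos hε, one_mul]
    exact h
  have hbig : ∀ K : ℝ, (∀ R : ℝ, ∃ x : ℝ, x ≤ R ∧ |ε * x| ≤ K * ldist ε x 0) → 1 ≤ K := by
    intro K hK
    by_contra hlt
    push Not at hlt
    obtain ⟨x, hx, hx2⟩ := hK (-((1 + ε) / ((1 - max K 0) * ε)) - 1)
    have hm : max K 0 < 1 := max_lt hlt one_pos
    have hpos : 0 < (1 - max K 0) * ε := mul_pos (by linarith) hε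
    have hq : 0 < (1 + ε) / ((1 - max K 0) * ε) := div_pos (by linarith) hpos
    have hxneg : x < 0 := by linarith
    have h1 : |ε * x| = ε * |x| := by rw [abs_mul, abs_of_pos hε]
    have h2 := ldist_le hε x 0
    rw [sub_zero] at h2
    have h3 : K * ldist ε x 0 ≤ max K 0 * (1 + ε * (|x| + 1)) := by
      have h4 : 0 ≤ ldist ε x 0 := le_trans zero_le_one (one_le_ldist hε hxneg.ne)
      calc K * ldist ε x 0 ≤ max K 0 * ldist ε x 0 :=
            mul_le_mul_of_nonneg_right (le_max_left _ _) h4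
        _ ≤ _ := mul_le_mul_of_nonneg_left h2 (le_max_right _ _)
    have h5 : (1 - max K 0) * ε * |x| ≤ max K 0 * (1 + ε) := by
      rw [h1] at hx2
      nlinarith
    have h6 : (1 + ε) / ((1 - max K 0) * ε) < |x| := by
      rw [abs_of_neg hxneg]
      linarith
    rw [div_lt_iff₀ hpos] at h6
    nlinarith
  refine ⟨Line, inferInstance, (0 : ℝ), CircleDeg1Liftˣ, inferInstance, inferInstance, hiso, f,
    ⟨?_, 1, zero_le_one, hf1⟩, ?_, ?_, ?_⟩
  · change ε * (0 : ℝ) = 0
    simp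
  · apply le_antisymm (lipNorm_le zero_le_one hf1)
    apply hbig
    intro R
    refine ⟨R, le_rfl, ?_⟩
    have := lipNorm_bound zero_le_one hf1 (show Line from R) (show Line from (0 : ℝ))
    change |ε * R - ε * 0| ≤ _ at this
    rw [mul_zero, sub_zero] at this
    exact this
  · intro g
    apply lipNorm_le hε.le
    intro x y
    change |((ε * (g⁻¹ x) - ε * (g⁻¹ (0 : ℝ))) - ε * (show ℝ from x)) -
      ((ε * (g⁻¹ y) - ε * (g⁻¹ (0 : ℝ))) - ε * (show ℝ from y))| ≤ ε * ldist ε x y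
    by_cases hxy : x = y
    · rw [hxy, sub_self, abs_zero]
      exact mul_nonneg hε.le (ldist_self ε y).ge
    · have h1 := displacement g⁻¹ x y
      have h2 := one_le_ldist hε hxy
      rw [show ((ε * (g⁻¹ x) - ε * (g⁻¹ (0 : ℝ))) - ε * (show ℝ from x)) -
        ((ε * (g⁻¹ y) - ε * (g⁻¹ (0 : ℝ))) - ε * (show ℝ from y)) =
        ε * ((g⁻¹ x - (show ℝ from x)) - (g⁻¹ y - (show ℝ from y))) by ring]
      rw [abs_mul, abs_of_pos hε]
      exact mul_le_mul_of_nonneg_left (h1.trans h2) hε.le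
  · rintro fb ⟨hfb0, Kb, hKb, hLb⟩ hinv
    -- the homomorphism attached to an invariant function
    let H : CircleDeg1Liftˣ → ℝ := fun g => fb (g (0 : ℝ) : ℝ)
    have hcov : ∀ (g : CircleDeg1Liftˣ) (x : ℝ), fb (g x : ℝ) = fb x + H g := by
      intro g x
      have h := congrFun (hinv g⁻¹) x
      change fb (g⁻¹⁻¹ x : ℝ) - fb (g⁻¹⁻¹ (0 : ℝ) : ℝ) = fb x at h
      rw [inv_inv] at h
      change fb (g x : ℝ) = fb x + fb (g (0 : ℝ) : ℝ)
      linarith
    have hH : ∀ g h, H (g * h) = H g + H h := by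
      intro g h
      change fb (((g * h : CircleDeg1Liftˣ) : CircleDeg1Lift) (0 : ℝ) : ℝ) = H g + H h
      rw [Units.val_mul, CircleDeg1Lift.mul_apply, hcov g]
      change H h + H g = H g + H h
      ring
    have hP : ∀ n : ℕ, H (P ^ n) = 0 := by
      intro n
      induction n with
      | zero =>
        have := hH 1 1
        rw [one_mul] at this
        rw [pow_zero]
        linarith
      | succ n ih => rw [pow_succ, hH, ih, hom_P H hH, add_zero]
    have hLf : LipBound (1 + Kb) (f - fb) := by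
      intro x y
      have h1 := hf1 x y
      have h2 := hLb x y
      have h3 : (f - fb) x - (f - fb) y = (f x - f y) - (fb x - fb y) := by
        simp only [Pi.sub_apply]
        ring
      rw [h3]
      calc |(f x - f y) - (fb x - fb y)| ≤ |f x - f y| + |fb x - fb y| := abs_sub _ _
        _ ≤ 1 * dist x y + Kb * dist x y := add_le_add h1 h2
        _ = (1 + Kb) * dist x y := by ring
    have key : ∀ q : Line, fb q = 0 →
        |ε * (show ℝ from q)| ≤ lipNorm (f - fb) * ldist ε q (0 : ℝ) := by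
      intro q hq
      have h := lipNorm_bound (by linarith) hLf q (show Line from (0 : ℝ))
      have e : (f - fb) q - (f - fb) (show Line from (0 : ℝ)) = ε * (show ℝ from q) := by
        have h0 : fb (show Line from (0 : ℝ)) = 0 := hfb0
        change (ε * (show ℝ from q) - fb q) - (ε * (0 : ℝ) - fb (show Line from (0 : ℝ))) = _
        rw [hq]
        linear_combination h0
      rw [e] at h
      exact h
    apply hbig
    intro R
    obtain ⟨n, hn⟩ := P_unbounded R
    exact ⟨_, hn.le, key _ (hP n)⟩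

end Pool.Agent.Results.MP_35e3b8_an.NoInvariantApproximation
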